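import Pool.Agent.H29.Trop

set_option autoImplicit false

namespace Pool.Agent.Results.MP_2780b6_an.SimpleSet

open Polynomial

theorem result :
    ∃ q : ℕ → ℝ[X], (∀ k, (q k).degree = k) ∧
      ∀ (n : ℕ) (a : ℕ → ℝ),
        (((∑ k ∈ Finset.range (n + 1), (Real.exp (-((k : ℝ) ^ 3)) * a k) • q k).map
            (algebraMap ℝ ℂ)).roots.filter (fun z : ℂ => z.im ≠ 0)).card ≤
        (((∑ k ∈ Finset.range (n + 1), a k • q k).map
            (algebraMap ℝ ℂ)).roots.filter (fun z : ℂ => z.im ≠ 0)).card := by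
  refine ⟨fun k => X ^ k, fun k => degree_X_pow k, fun n a => ?_⟩
  refine Pool.Agent.H29.Trop.czds (fun k => Real.exp (-((k : ℝ) ^ 3))) (fun k => Real.exp_pos _)
    (Pool.Agent.H29.Trop.exp_ratio 3 le_rfl) _ _ (fun k => ?_)
  simp only [finset_sum_coeff, coeff_smul, coeff_X_pow, smul_eq_mul, mul_ite,
    mul_one, mul_zero, Finset.sum_ite_eq]


end Pool.Agent.Results.MP_2780b6_an.SimpleSet
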